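import Pool.Agent.V5helper67.CI.Upper
import Pool.Agent.V5helper67.CK.Core4
import Pool.Agent.V5helper67.CK.Conn
import Pool.Agent.V5helper67.CK.Cyclo
import Pool.Agent.V5helper54.CI.PAR2

/-!
# The (1+1) EA on minimum spanning trees: the role of the cyclomatic number

Let `m` be the number of edges, `n` the number of vertices and `k ≥ m + 1 - n` (so `k` is an upper
bound of the number of edges outside of a spanning tree).

* Upper bounds, for every instance with `m ≥ 2` edges and every initial spanning tree: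
  `E[T] ≤ 250 m² (ln m + k)`, and `E[T] ≤ 250 m² (ln m + k c / m)` if all cycles have at most `c`
  edges. So the bound `O(m² ln m)` holds for all graphs with at most `ln m` independent cycles, and
  for all graphs with `k c ≤ m ln m`, whatever the weights.
* Lower bound: for all large `m` and all `k` with `m^(2/3) (ln m)² ≤ k ≤ m / 6` there is a connected
  instance with exactly `m` edges and with `m + 1 - n ≤ k` with
  `E[T] ≥ 10⁻⁵ m² (k³ / m²)^(1/5) / (ln m)²`. So for the graphs with at most `m^(2/3 + ε)`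
  independent cycles the expected runtime is not bounded by `m²` times a power of `ln m`.

Construction for the lower bound: fans with a common vertex as in the other files, with a first spoke
as long as the size of the block permits, and bundles of paths of length two whose total number is
at most `k`.
-/

open scoped ENNReal

namespace Pool.Agent.Results.MP_8f38de_lc.CyclomaticNumber

open Pool.Agent.Helper120.EaModel

/-- The upper bounds and the lower bound in terms of the cyclomatic number. -/
theorem result :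
    (∀ (V E : Type) [Finite V] [Fintype E] [DecidableEq E] (G : WGraph V E) (x0 : Finset E),
      2 ≤ Fintype.card E → G.IsSpanningTree x0 →
      ∀ k : ℕ, Fintype.card E + 1 ≤ Nat.card V + k →
        G.expectedRuntime x0 ≤ ENNReal.ofReal (250 * (Fintype.card E : ℝ) ^ 2 *
          (Real.log (Fintype.card E) + k)) ∧
        ∀ c : ℕ, (∀ (v : V) (p : (G.subgraph Finset.univ).Walk v v), p.IsCycle → p.length ≤ c) →
          G.expectedRuntime x0 ≤ ENNReal.ofReal (250 * ((Fintype.card E : ℝ) ^ 2 *
            Real.log (Fintype.card E) + Fintype.card E * k * c))) ∧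
    (∃ m0 : ℕ, ∀ m : ℕ, m0 ≤ m → ∀ k : ℕ, (m : ℝ) ^ (2 / 3 : ℝ) * Real.log m ^ 2 ≤ k →
      6 * k ≤ m →
      ∃ (V E : Type) (_ : Fintype V) (_ : Fintype E) (_ : DecidableEq E) (G : WGraph V E)
        (x0 : Finset E), (G.subgraph Finset.univ).Connected ∧ G.IsSpanningTree x0 ∧
        Fintype.card E = m ∧ Fintype.card E + 1 ≤ Nat.card V + k ∧
        ENNReal.ofReal (1 / 10 ^ 5 * ((m : ℝ) ^ 2 * ((k : ℝ) ^ 3 / (m : ℝ) ^ 2) ^ (1 / 5 : ℝ) /
          Real.log m ^ 2)) ≤ G.expectedRuntime x0) := by
  refine ⟨?_, ?_⟩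
  · intro V E _ _ _ G x0 hcard hx0 k hk
    exact ⟨Pool.Agent.V5helper67.CI.upper_k hcard hk hx0, fun c hc =>
      Pool.Agent.V5helper67.CI.upper_kc hcard hk hc hx0⟩
  · obtain ⟨m0, hm0⟩ := Pool.Agent.V5helper54.CI.t_PAR2
    refine ⟨m0, fun m hm k hk1 hk2 => ?_⟩
    obtain ⟨L, ℓ, n, N, M, B, h1, h2, h3, h4, h5, h6, h7, h8, h9, h10, h11, h12, h13⟩ :=
      hm0 m hm k hk1 hk2
    obtain ⟨Q, x0, g1, g2, g3, _, g5, g6, g7, g8⟩ :=
      Pool.Agent.V5helper67.EC.Pm.core4 h1 h2 h3 h4 h5 h6 h7 h8 h9 h10 h11
    refine ⟨Q.Vx, Q.Ex, inferInstance, inferInstance, inferInstance, _, x0,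
      Pool.Agent.V5helper67.EC.Pm.conn Q, g1, g2, ?_, le_trans (ENNReal.ofReal_le_ofReal h13) g8⟩
    have h := Pool.Agent.V5helper67.EC.Pm.cyclo Q
    have h14 : Q.L * (Q.M + Q.g * Q.n) = L * (M + ℓ * n ^ 2) := by
      rw [g3, g5, g6, g7]
      ring
    rw [h14] at h
    omega

end Pool.Agent.Results.MP_8f38de_lc.CyclomaticNumber
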