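import Pool.Agent.V5helper67.EB.Exist
import Pool.Agent.V5helper67.EB.Cycle
import Pool.Agent.V5helper67.EB.Low

/-!
# The (1+1) EA on minimum spanning trees: the role of the number of distinct weights

Let `m` be the number of edges and `R` the number of distinct weights of the instance.

* Upper bounds, for every instance with `m ≥ 2` edges and every initial spanning tree:
  `E[T] ≤ 250 (m² ln m + m √(R · U))`, where `U ≤ m²` is the number of pairs of edges with different
  weights, and `E[T] ≤ 250 (m² ln m + R · P)`, if no spanning tree has more than `P` worsening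
  swaps; in particular `E[T] ≤ 250 m² (ln m + min (√R, R c / m))` if all cycles have at most `c`
  edges. So the bound `O(m² ln m)` holds for all instances with at most `(ln m)²` distinct weights.
* Lower bound: for all large `m` and all `r` with `(ln m)⁴ ≤ r ≤ m^(3/5)` there is an instance with
  `m` edges and at most `r` distinct weights with `E[T] ≥ 10⁻⁶ m² r^(1/3) / (ln m)²`. So `(ln m)¹⁰`
  distinct weights are too many for the bound `O(m² ln m)`.

The potential used for the upper bounds is a sum over the gaps between consecutive weights; a gap of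
size `v` has the value `v * lam v`, where the rate `lam` decreases with `v` and is constructed from
the instance (`exists_lam` for the first bound, `ll` for the second one).
-/

open scoped ENNReal

namespace Pool.Agent.Results.MP_8f38de_lc.DistinctWeights

open Pool.Agent.Helper120.EaModel

variable {V E : Type} [Fintype E] (G : WGraph V E)

/-- the number of distinct weights of the edges -/
def distinctWeights : ℕ := (Finset.univ.image G.weight).card

/-- the number of pairs of edges with different weights -/
def unequalPairs : ℕ :=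
  ((Finset.univ : Finset (E × E)).filter fun q => G.weight q.1 < G.weight q.2).card

open Classical in
/-- the number of worsening swaps of `x`: pairs of an edge `a` of `x` and an edge `b` not in `x` of
larger weight, such that `x` with `a` replaced by `b` is a spanning tree -/
noncomputable def worseningSwaps [DecidableEq E] (x : Finset E) : ℕ :=
  ((Finset.univ : Finset (E × E)).filter fun q => q.1 ∈ x ∧ q.2 ∉ x ∧
    G.weight q.1 < G.weight q.2 ∧ G.IsSpanningTree (insert q.2 (x.erase q.1))).card

/-- all cycles of the graph have at most `c` edges -/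
def CyclesLe (c : ℕ) : Prop :=
  ∀ (v : V) (p : (G.subgraph Finset.univ).Walk v v), p.IsCycle → p.length ≤ c

/-- The upper bounds and the lower bound in terms of the number of distinct weights. -/
theorem result :
    (∀ (V E : Type) [Finite V] [Fintype E] [DecidableEq E] (G : WGraph V E) (x0 : Finset E),
      2 ≤ Fintype.card E → G.IsSpanningTree x0 →
      G.expectedRuntime x0 ≤ ENNReal.ofReal (250 * ((Fintype.card E : ℝ) ^ 2 *
        Real.log (Fintype.card E) + Fintype.card E *
          Real.sqrt (distinctWeights G * unequalPairs G))) ∧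
      (∀ P : ℕ, (∀ x, G.IsSpanningTree x → worseningSwaps G x ≤ P) →
        G.expectedRuntime x0 ≤ ENNReal.ofReal (250 * ((Fintype.card E : ℝ) ^ 2 *
          Real.log (Fintype.card E) + distinctWeights G * P))) ∧
      (∀ c : ℕ, CyclesLe G c →
        G.expectedRuntime x0 ≤ ENNReal.ofReal (250 * (Fintype.card E : ℝ) ^ 2 *
          (Real.log (Fintype.card E) + min (Real.sqrt (distinctWeights G))
            (distinctWeights G * c / Fintype.card E)))) ∧
      ((distinctWeights G : ℝ) ≤ Real.log (Fintype.card E) ^ 2 →
        G.expectedRuntime x0 ≤ ENNReal.ofReal (500 * (Fintype.card E : ℝ) ^ 2 *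
          Real.log (Fintype.card E)))) ∧
    (∃ m0 : ℕ, ∀ m : ℕ, m0 ≤ m → ∀ r : ℝ, Real.log m ^ 4 ≤ r → r ≤ (m : ℝ) ^ (3 / 5 : ℝ) →
      ∃ (V E : Type) (_ : Fintype V) (_ : Fintype E) (_ : DecidableEq E) (G : WGraph V E)
        (x0 : Finset E), (G.subgraph Finset.univ).Connected ∧ G.IsSpanningTree x0 ∧
        Fintype.card E = m ∧ (distinctWeights G : ℝ) ≤ r ∧
        ENNReal.ofReal (1 / 10 ^ 6 * ((m : ℝ) ^ 2 * r ^ (1 / 3 : ℝ) / Real.log m ^ 2)) ≤
          G.expectedRuntime x0) := by
  classical
  refine ⟨?_, ?_⟩
  · intro V E _ _ _ G x0 hcard hx0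
    obtain ⟨m, hm⟩ : ∃ m : ℝ, m = Fintype.card E := ⟨_, rfl⟩
    have hm2 : 2 ≤ m := by rw [hm]; exact_mod_cast hcard
    have hm0 : 0 < m := by linarith
    obtain ⟨R, hR⟩ : ∃ R : ℝ, R = distinctWeights G := ⟨_, rfl⟩
    have hR0 : 0 ≤ R := by rw [hR]; exact Nat.cast_nonneg _
    have hlog : 0 ≤ Real.log m := Real.log_nonneg (by linarith)
    have hA := Pool.Agent.V5helper67.EB.upper_A G hcard hx0
    have hA' : G.expectedRuntime x0 ≤ ENNReal.ofReal (250 * (m ^ 2 * Real.log m + m *
          Real.sqrt (R * unequalPairs G))) := by rw [hm, hR]; exact hA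
    have hU : (unequalPairs G : ℝ) ≤ m ^ 2 := by
      have h1 : unequalPairs G ≤ Fintype.card E ^ 2 := by
        unfold unequalPairs
        refine (Finset.card_filter_le _ _).trans (le_of_eq ?_)
        rw [Finset.card_univ, Fintype.card_prod, sq]
      rw [hm]
      exact_mod_cast h1
    have hS : m * Real.sqrt (R * unequalPairs G) ≤ m ^ 2 * Real.sqrt R := by
      have h1 : Real.sqrt (R * unequalPairs G) ≤ Real.sqrt (R * m ^ 2) :=
        Real.sqrt_le_sqrt (mul_le_mul_of_nonneg_left hU hR0)
      rw [Real.sqrt_mul hR0 (m ^ 2), Real.sqrt_sq hm0.le] at h1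
      calc m * Real.sqrt (R * unequalPairs G) ≤ m * (Real.sqrt R * m) :=
            mul_le_mul_of_nonneg_left h1 hm0.le
        _ = _ := by ring
    refine ⟨hA, ?_, ?_, ?_⟩
    · intro P hP
      exact Pool.Agent.V5helper67.EB.upper_B G hcard (P := P) (fun x hx => hP x hx) hx0
    · intro c hc
      have hB := Pool.Agent.V5helper67.EB.upper_B G hcard (P := Fintype.card E * c)
        (fun x hx => Pool.Agent.V5helper67.EB.BP_le hc hx) hx0
      have hB' : G.expectedRuntime x0 ≤ ENNReal.ofReal (250 * (m ^ 2 * Real.log m +
          R * (m * c))) := by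
        rw [hm, hR]
        push_cast at hB
        exact hB
      rw [← hm, ← hR]
      rcases min_choice (Real.sqrt R) (R * c / m) with h | h
      · rw [h]
        refine hA'.trans (ENNReal.ofReal_le_ofReal ?_)
        linarith
      · rw [h]
        refine hB'.trans (ENNReal.ofReal_le_ofReal (le_of_eq ?_))
        field_simp
    · intro hr
      rw [← hm, ← hR] at hr
      rw [← hm]
      refine hA'.trans (ENNReal.ofReal_le_ofReal ?_)
      have h1 : Real.sqrt R ≤ Real.log m := by
        apply Real.sqrt_le_iff.2
        exact ⟨hlog, hr⟩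
      have h2 : m ^ 2 * Real.sqrt R ≤ m ^ 2 * Real.log m :=
        mul_le_mul_of_nonneg_left h1 (by positivity)
      linarith
  · obtain ⟨m0, hm0⟩ := Pool.Agent.V5helper67.EB.final2
    refine ⟨m0, fun m hm r hr1 hr2 => ?_⟩
    obtain ⟨Q, x0, h1, h2, h3, h4⟩ := hm0 m hm r hr1 hr2
    exact ⟨Q.Vx, Q.Ex, inferInstance, inferInstance, inferInstance, _, x0,
      Pool.Agent.V5helper67.EAL.Pm.conn Q, h1, h2, h3, h4⟩

end Pool.Agent.Results.MP_8f38de_lc.DistinctWeights
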