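import Pool.Agent.V5helper67.CK.Core4
import Pool.Agent.V5helper67.CK.Conn
import Pool.Agent.V5helper61.CI.PAR
import Pool.Agent.V5helper67.CI.Gen
import Pool.Agent.V5helper82.CI.CYC

/-!
# The (1+1) EA on minimum spanning trees: graphs of small circumference

For all large `m` and all `c` with `√m (ln m)³ ≤ c ≤ m^(4/5)` there is a connected instance with
exactly `m` edges, in which all cycles have at most `c` edges, and
`E[T] ≥ 10⁻⁷ m² (c² / m)^(1/3) / (ln m)³`.

So for the class of the graphs of circumference at most `c ≥ m^(1/2 + ε)` the expected runtime is not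
bounded by `m²` times a power of `ln m`. (For every graph of circumference `c` the upper bound
`O(m² (√c + ln m))` of Witt holds.)

Construction: about `(c² / m)^(1/3)` blocks (up to powers of `ln m`) with a common vertex; the
weights of a block are much larger than those of the next block. A block is a fan: spokes (paths) of
`n` edges, whose tips are joined to a path by bundles of `n` paths of length two, but the first spoke
has about `c / 4` edges and the first bundle has as many edges as the size of the block permits.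
-/

open scoped ENNReal

namespace Pool.Agent.Results.MP_8f38de_lc.SmallCircumference

open Pool.Agent.Helper120.EaModel

/-- The lower bound for graphs of small circumference. -/
theorem result : ∃ m0 : ℕ, ∀ m : ℕ, m0 ≤ m → ∀ c : ℝ,
    Real.sqrt m * Real.log m ^ 3 ≤ c → c ≤ (m : ℝ) ^ (4 / 5 : ℝ) →
      ∃ (V E : Type) (_ : Fintype V) (_ : Fintype E) (_ : DecidableEq E) (G : WGraph V E)
        (x0 : Finset E), (G.subgraph Finset.univ).Connected ∧ G.IsSpanningTree x0 ∧
        Fintype.card E = m ∧
        (∀ (v : V) (p : (G.subgraph Finset.univ).Walk v v), p.IsCycle → (p.length : ℝ) ≤ c) ∧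
        ENNReal.ofReal (1 / 10 ^ 7 * ((m : ℝ) ^ 2 * (c ^ 2 / m) ^ (1 / 3 : ℝ) / Real.log m ^ 3)) ≤
          G.expectedRuntime x0 := by
  obtain ⟨m0, hm0⟩ := Pool.Agent.V5helper61.CI.t_PAR
  refine ⟨m0, fun m hm c hc1 hc2 => ?_⟩
  obtain ⟨L, ℓ, n, N, M, B, h1, h2, h3, h4, h5, h6, h7, h8, h9, h10, h11, h12, h13⟩ :=
    hm0 m hm c hc1 hc2
  obtain ⟨Q, x0, g1, g2, _, g3, _, g4, g5, g6⟩ :=
    Pool.Agent.V5helper67.EC.Pm.core4 h1 h2 h3 h4 h5 h6 h7 h8 h9 h10 h11
  refine ⟨Q.Vx, Q.Ex, inferInstance, inferInstance, inferInstance, _, x0,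
    Pool.Agent.V5helper67.EC.Pm.conn Q, g1, g2, ?_, le_trans (ENNReal.ofReal_le_ofReal h13) g6⟩
  intro v p hp
  have h := Pool.Agent.V5helper82.CI.t_CYC Pool.Agent.V5helper67.CI.t_GEN Q v p hp
  obtain ⟨len, hlen⟩ : ∃ len, len = p.length := ⟨_, rfl⟩
  rw [← hlen] at h ⊢
  rw [g3, g4, g5] at h
  refine le_trans ?_ h12
  exact_mod_cast h

end Pool.Agent.Results.MP_8f38de_lc.SmallCircumference
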