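import Pool.Agent.V5helper67.EB.Scale2
import Pool.Agent.V5helper67.EB.Low3

/-!
# The (1+1) EA on minimum spanning trees: a polynomial lower bound and the role of the scales

Let `m` be the number of edges. The gaps of an instance are the differences of consecutive weights
(and the smallest weight); a gap `g` has the scale `⌊log_m g⌋`, and `S` is the number of scales
which contain a gap.

* Lower bound for all weights: `T*(m) ≥ m^(11/5) / (240000 (ln m)²)` for all large `m`, so that
  `T*(m)` is polynomially larger than `m²`.
* Lower bound for bounded weights: for all large `m` and all `W` with `m⁶ ≤ W ≤ exp (m^(1/5) / 400)`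
  there is an instance with `m` edges and weights at most `W`, hence with `S ≤ ln W / ln m + 1`, and
  with `E[T] ≥ m² ln W / (600 (ln m)²)`.
* Upper bounds, for every instance with `m ≥ 2` edges and every initial spanning tree:
  `E[T] ≤ 250 (1 + S) m² ln m`, and more precisely `E[T] ≤ 250 (m² ln m + ∑ min (m² ln m, g_i P))`,
  where the sum is over the scales `i`, the number `g_i ≥ 1` is the number of gaps of the scale `i`,
  and `P` is the largest number of worsening swaps of a spanning tree.

So the upper bound by the number of scales, and the known upper bound of the order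
`m² (ln m + ln w_max)`, are tight up to the factor `(ln m)²` for all these values of `S` and of the
largest weight.

Construction for the lower bounds: `ln W / ln m - 2` blocks with a common vertex; the weights of a
block are much larger than those of the next block. A block is a fan: about `m^(2/5) ln m` spokes
(paths) of `m^(2/5)` edges, whose tips are joined to a path by bundles of `m^(2/5)` edges, but the
first spoke and the first bundle have `m^(4/5) ln m` edges. In a clean block all spokes are complete.
Once an edge of the first bundle replaces an edge of the first spoke there is a long avalanche of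
cheap improvements (each of them has `m^(2/5)` realisations), which takes about `m²` rounds, and in
each of the `m^(2/5)` steps the first bundle of the next block is activated again with probability
`m^(-2/5) ln² m`.
-/

open scoped ENNReal

namespace Pool.Agent.Results.MP_8f38de_lc.WeightScales

open Pool.Agent.Helper120.EaModel

variable {V E : Type} [Fintype E] (G : WGraph V E)

/-- the gap below `t`: the difference of `t` and the largest weight of an edge which is smaller than
`t`, or of `t` and `0` if there is no such weight -/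
def gap (t : ℕ) : ℕ := t - (((Finset.univ.image G.weight).filter (· < t)).sup id)

/-- the scales `⌊log_m g⌋` of the gaps `g` below the weights of the edges, `m` the number of
edges -/
def scales : Finset ℕ :=
  (Finset.univ.image G.weight).image fun t => Nat.log (Fintype.card E) (gap G t)

/-- the number of gaps (below the weights of the edges) of the scale `i` -/
def gapsIn (i : ℕ) : ℕ :=
  ((Finset.univ.image G.weight).filter fun t => Nat.log (Fintype.card E) (gap G t) = i).card

open Classical in
/-- the number of worsening swaps of `x`: pairs of an edge `a` of `x` and an edge `b` not in `x` of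
larger weight, such that `x` with `a` replaced by `b` is a spanning tree -/
noncomputable def worseningSwaps [DecidableEq E] (x : Finset E) : ℕ :=
  ((Finset.univ : Finset (E × E)).filter fun q => q.1 ∈ x ∧ q.2 ∉ x ∧
    G.weight q.1 < G.weight q.2 ∧ G.IsSpanningTree (insert q.2 (x.erase q.1))).card

theorem scales_le {W : ℝ} (hm : 2 ≤ Fintype.card E) (hW1 : 1 ≤ W)
    (hW : ∀ e, (G.weight e : ℝ) ≤ W) :
    ((scales G).card : ℝ) ≤ Real.log W / Real.log (Fintype.card E) + 1 := by
  have hm1 : (1 : ℝ) < Fintype.card E := by
    have : (2 : ℝ) ≤ Fintype.card E := by exact_mod_cast hm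
    linarith
  have hlog : 0 < Real.log (Fintype.card E) := Real.log_pos hm1
  have h0 : 0 ≤ Real.log W / Real.log (Fintype.card E) :=
    div_nonneg (Real.log_nonneg hW1) hlog.le
  have h1 : scales G ⊆ Finset.range (⌊Real.log W / Real.log (Fintype.card E)⌋₊ + 1) := by
    intro i hi
    unfold scales at hi
    rw [Finset.mem_image] at hi
    obtain ⟨t, ht, hi⟩ := hi
    rw [Finset.mem_image] at ht
    obtain ⟨e, _, he⟩ := ht
    rw [Finset.mem_range]
    apply Nat.lt_succ_of_le
    apply Nat.le_floor
    rcases Nat.eq_zero_or_pos i with h | h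
    · rw [h]
      simpa using h0
    · rw [le_div_iff₀ hlog, ← Real.log_pow]
      apply Real.log_le_log (by positivity)
      have h2 : gap G t ≠ 0 := by
        intro h3
        rw [h3, Nat.log_zero_right] at hi
        omega
      have h3 : Fintype.card E ^ i ≤ gap G t := by
        rw [← hi]
        exact Nat.pow_log_le_self _ h2
      have h4 : gap G t ≤ G.weight e := by
        rw [he]
        exact Nat.sub_le _ _
      have h5 : ((Fintype.card E : ℝ)) ^ i ≤ G.weight e := by
        exact_mod_cast h3.trans h4
      exact h5.trans (hW e)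
  have h2 := Finset.card_le_card h1
  rw [Finset.card_range] at h2
  have h3 : ((scales G).card : ℝ) ≤ ⌊Real.log W / Real.log (Fintype.card E)⌋₊ + 1 := by
    exact_mod_cast h2
  have h4 := Nat.floor_le h0
  linarith

/-- the largest weight of the construction is in the range of the lower bound -/
theorem range_ok : ∀ᶠ x : ℝ in Filter.atTop, 1 < x ∧ x ^ 6 ≤ Real.exp (x ^ (1 / 5 : ℝ) / 400) := by
  have h2 := (isLittleO_log_rpow_atTop (r := (1 / 5 : ℝ)) (by norm_num)).def
    (c := 1 / 2400) (by norm_num)
  filter_upwards [h2, Filter.eventually_gt_atTop (1 : ℝ)] with x hx hx1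
  refine ⟨hx1, ?_⟩
  rw [Real.norm_of_nonneg (Real.log_nonneg hx1.le),
    Real.norm_of_nonneg (Real.rpow_nonneg (by linarith) _)] at hx
  have h3 : x ^ 6 = Real.exp (((6 : ℕ) : ℝ) * Real.log x) := by
    rw [Real.exp_nat_mul, Real.exp_log (by linarith)]
  rw [h3]
  apply Real.exp_le_exp.2
  push_cast
  linarith

/-- The lower bound for all weights, the lower bound in terms of the largest weight, and the upper
bounds in terms of the scales of the gaps. -/
theorem result :
    (∃ m0 : ℕ, ∀ m : ℕ, m0 ≤ m →
      ∃ (V E : Type) (_ : Fintype V) (_ : Fintype E) (_ : DecidableEq E) (G : WGraph V E)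
        (x0 : Finset E), (G.subgraph Finset.univ).Connected ∧ G.IsSpanningTree x0 ∧
        Fintype.card E = m ∧
        ENNReal.ofReal ((m : ℝ) ^ (11 / 5 : ℝ) / (240000 * Real.log m ^ 2)) ≤
          G.expectedRuntime x0) ∧
    (∃ m0 : ℕ, ∀ m : ℕ, m0 ≤ m → ∀ W : ℝ, (m : ℝ) ^ 6 ≤ W →
      W ≤ Real.exp ((m : ℝ) ^ (1 / 5 : ℝ) / 400) →
      ∃ (V E : Type) (_ : Fintype V) (_ : Fintype E) (_ : DecidableEq E) (G : WGraph V E)
        (x0 : Finset E), (G.subgraph Finset.univ).Connected ∧ G.IsSpanningTree x0 ∧
        Fintype.card E = m ∧ (∀ e, (G.weight e : ℝ) ≤ W) ∧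
        ((scales G).card : ℝ) ≤ Real.log W / Real.log m + 1 ∧
        ENNReal.ofReal ((m : ℝ) ^ 2 * Real.log W / (600 * Real.log m ^ 2)) ≤
          G.expectedRuntime x0) ∧
    (∀ (V E : Type) [Finite V] [Fintype E] [DecidableEq E] (G : WGraph V E) (x0 : Finset E),
      2 ≤ Fintype.card E → G.IsSpanningTree x0 →
      G.expectedRuntime x0 ≤ ENNReal.ofReal (250 * (1 + (scales G).card) *
        ((Fintype.card E : ℝ) ^ 2 * Real.log (Fintype.card E))) ∧
      (∀ P : ℕ, (∀ x, G.IsSpanningTree x → worseningSwaps G x ≤ P) →
        G.expectedRuntime x0 ≤ ENNReal.ofReal (250 * ((Fintype.card E : ℝ) ^ 2 *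
          Real.log (Fintype.card E) + ∑ i ∈ scales G,
            min ((Fintype.card E : ℝ) ^ 2 * Real.log (Fintype.card E)) (gapsIn G i * P))))) := by
  classical
  obtain ⟨m0, hm0⟩ := Pool.Agent.V5helper67.EB.final3
  refine ⟨?_, ?_, ?_⟩
  · obtain ⟨m1, hm1⟩ := Filter.eventually_atTop.1
      (tendsto_natCast_atTop_atTop.eventually range_ok)
    refine ⟨max m0 m1, fun m hm => ?_⟩
    obtain ⟨c1, c2⟩ := hm1 m (le_trans (le_max_right _ _) hm)
    obtain ⟨Q, x0, h1, h2, _, h4⟩ := hm0 m (le_trans (le_max_left _ _) hm) _ c2 le_rfl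
    refine ⟨Q.Vx, Q.Ex, inferInstance, inferInstance, inferInstance, _, x0,
      Pool.Agent.V5helper67.EAL.Pm.conn Q, h1, h2, le_trans (ENNReal.ofReal_le_ofReal ?_) h4⟩
    have hm : (0 : ℝ) < m := by linarith
    have h5 : (m : ℝ) ^ (11 / 5 : ℝ) = (m : ℝ) ^ 2 * (m : ℝ) ^ (1 / 5 : ℝ) := by
      rw [← Real.rpow_natCast (m : ℝ) 2, ← Real.rpow_add hm]
      norm_num
    rw [Real.log_exp, h5]
    apply le_of_eq
    have h6 : 0 < Real.log m := Real.log_pos c1
    field_simp
    norm_num
  · refine ⟨max m0 2, fun m hm W hW1 hW2 => ?_⟩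
    have hm2 : 2 ≤ m := le_trans (le_max_right _ _) hm
    obtain ⟨Q, x0, h1, h2, h3, h4⟩ := hm0 m (le_trans (le_max_left _ _) hm) W hW1 hW2
    refine ⟨Q.Vx, Q.Ex, inferInstance, inferInstance, inferInstance, _, x0,
      Pool.Agent.V5helper67.EAL.Pm.conn Q, h1, h2, h3, ?_, h4⟩
    have hW : 1 ≤ W := by
      have h5 : (1 : ℝ) ≤ (m : ℝ) ^ 6 := one_le_pow₀ (by
        have : (2 : ℝ) ≤ m := by exact_mod_cast hm2
        linarith)
      linarith
    have h6 := scales_le (Pool.Agent.V5helper67.EAL.Pm.GG Q) (W := W) (by rw [h2]; exact hm2) hW h3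
    rw [h2] at h6
    exact h6
  · intro V E _ _ _ G x0 hcard hx0
    have hC : ∀ P : ℕ, (∀ x, G.IsSpanningTree x → worseningSwaps G x ≤ P) →
        G.expectedRuntime x0 ≤ ENNReal.ofReal (250 * ((Fintype.card E : ℝ) ^ 2 *
          Real.log (Fintype.card E) + ∑ i ∈ scales G,
            min ((Fintype.card E : ℝ) ^ 2 * Real.log (Fintype.card E)) (gapsIn G i * P))) :=
      fun P hP => Pool.Agent.V5helper67.EB.upper_C G hcard (P := P) (fun x hx => hP x hx) hx0
    refine ⟨?_, hC⟩
    have h1 : ∀ x, G.IsSpanningTree x → worseningSwaps G x ≤ Fintype.card E ^ 2 := by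
      intro x _
      unfold worseningSwaps
      refine (Finset.card_filter_le _ _).trans (le_of_eq ?_)
      rw [Finset.card_univ, Fintype.card_prod, sq]
    refine (hC _ h1).trans (ENNReal.ofReal_le_ofReal ?_)
    obtain ⟨A, hA⟩ : ∃ A : ℝ, A = (Fintype.card E : ℝ) ^ 2 * Real.log (Fintype.card E) := ⟨_, rfl⟩
    rw [← hA]
    have h2 : ∑ i ∈ scales G, min A (gapsIn G i * ((Fintype.card E ^ 2 : ℕ) : ℝ)) ≤
        (scales G).card * A := by
      rw [← nsmul_eq_mul]
      exact Finset.sum_le_card_nsmul _ _ _ fun i _ => min_le_left _ _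
    linarith

end Pool.Agent.Results.MP_8f38de_lc.WeightScales
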